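import Pool.Agent.Y440.A.Stm

/-! Representatives of the structures on seven points. -/

set_option autoImplicit false

namespace Pool.Agent.Y440.A

/-- codes of representatives of the 423 structures on seven points -/
def reps : List ℕ := [0, 1, 3, 7, 15, 19, 20, 21, 23, 28, 29, 31,
  54, 58, 59, 62, 126, 220, 1043, 1044, 1045, 1047, 1052, 1053,
  1055, 1062, 1063, 1064, 1065, 1066, 1067, 1070, 1071, 1078, 1079, 1082,
  1083, 1084, 1085, 1086, 1087, 1132, 1133, 1134, 1135, 1150, 1151, 1188,
  1189, 1191, 1192, 1193, 1195, 1196, 1197, 1199, 1207, 1208, 1209, 1211,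
  1212, 1213, 1215, 1228, 1229, 1231, 1244, 1245, 1247, 1260, 1261, 1262,
  1263, 1279, 1516, 1535, 3126, 3127, 3130, 3131, 3134, 3135, 3164, 3165,
  3166, 3167, 3198, 3199, 3219, 3220, 3221, 3223, 3224, 3225, 3227, 3228,
  3229, 3231, 3254, 3255, 3256, 3257, 3258, 3259, 3262, 3263, 3273, 3275,
  3279, 3290, 3291, 3292, 3293, 3294, 3295, 3326, 3327, 3347, 3348, 3349,
  3350, 3351, 3356, 3357, 3359, 3364, 3365, 3366, 3367, 3369, 3370, 3371,
  3372, 3373, 3374, 3375, 3382, 3383, 3385, 3386, 3387, 3388, 3389, 3390,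
  3391, 3400, 3402, 3418, 3419, 3420, 3421, 3422, 3423, 3436, 3438, 3439,
  3454, 3455, 7294, 7295, 7350, 7351, 7352, 7353, 7354, 7355, 7358, 7359,
  7369, 7371, 7375, 7386, 7387, 7388, 7389, 7390, 7391, 7422, 7423, 11443,
  11447, 11448, 11449, 11451, 11455, 11458, 11459, 11462, 11463, 11465, 11467, 11471,
  11475, 11476, 11477, 11478, 11479, 11480, 11481, 11482, 11483, 11484, 11485, 11486,
  11487, 11507, 11510, 11511, 11512, 11513, 11514, 11515, 11518, 11519, 12486, 12487,
  12495, 12502, 12503, 12508, 12509, 12511, 12534, 12535, 12537, 12539, 12543, 12576,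
  12579, 12583, 12591, 12640, 12643, 12646, 12647, 12651, 12655, 12768, 12771, 12774,
  12775, 12783, 13526, 13532, 13533, 13535, 13542, 13543, 13544, 13545, 13546, 13547,
  13550, 13551, 13558, 13560, 13561, 13562, 13563, 13564, 13565, 13566, 13567, 13684,
  13685, 13686, 13687, 13689, 13692, 13693, 13795, 13796, 13797, 13798, 13804, 13811,
  13812, 13813, 13814, 13815, 13820, 13821, 13823, 15606, 15608, 15609, 15610, 15611,
  15614, 15615, 15732, 15733, 15740, 15741, 15795, 15800, 15801, 15803, 15804, 15827,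
  15828, 15829, 15836, 15837, 15839, 15859, 15861, 15864, 15865, 15866, 15867, 15868,
  15869, 31200, 31201, 31203, 31205, 31207, 31215, 31217, 31219, 31220, 31221, 31228,
  32243, 32245, 32247, 32252, 32255, 65520, 65523, 65527, 65535, 76983, 76984, 76985,
  76987, 76991, 77002, 77006, 77020, 78031, 78044, 78045, 78046, 78047, 78079, 78134,
  78137, 78140, 78141, 78142, 78143, 78172, 78174, 78190, 78191, 78207, 79068, 79069,
  79070, 79071, 79086, 79087, 79102, 79103, 79196, 79212, 79213, 79214, 79215, 79231,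
  79269, 79277, 79308, 79309, 79310, 79340, 79341, 81151, 81260, 81261, 81262, 81263,
  81279, 88519, 88527, 88534, 88535, 88540, 88542, 88543, 88558, 88575, 89559, 89564,
  89565, 89567, 89580, 89599, 96757, 96761, 96763, 97783, 97787, 97791, 119631, 119807,
  120805, 120812, 120813, 120815, 122835, 122841, 122843, 122844, 241500, 241503, 241514, 241518,
  242467, 243558, 1048575]

/-- statement REPS -/
def S_reps : Prop := ∀ (V : Type) (E : V → V → V → V → ℕ), Odd4 E → ∀ y : Fin 7 → V,
  ∃ π : Equiv.Perm (Fin 7), cd7 E (y ∘ π) ∈ reps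

end Pool.Agent.Y440.A
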