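import Mathlib

/-! Definitions and intermediate statements: four-uniform hypergraphs in which every five vertices span
an even number of edges. -/

set_option autoImplicit false

open Finset

namespace Pool.Agent.Y440.A

/-- `E` is a symmetric function of four points with values 0 and 1 whose sum over the five quadruples of
any five points (repetitions allowed) is odd -/
structure Odd4 {V : Type} (E : V → V → V → V → ℕ) : Prop where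
  bt : ∀ a b c d, E a b c d = 0 ∨ E a b c d = 1
  s0 : ∀ a b c d, E b a c d = E a b c d
  s1 : ∀ a b c d, E a c b d = E a b c d
  s2 : ∀ a b c d, E a b d c = E a b c d
  odd : ∀ a b c d e, (E a b c d + E a b c e + E a b d e + E a c d e + E b c d e) % 2 = 1

/-- number with the binary digits `b0, b1, ..., b9` -/
def b10 (b0 b1 b2 b3 b4 b5 b6 b7 b8 b9 : ℕ) : ℕ :=
  b0 + 2 * (b1 + 2 * (b2 + 2 * (b3 + 2 * (b4 + 2 * (b5 + 2 * (b6 + 2 * (b7 + 2 * (b8 + 2 * b9))))))))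

/-- digit `k` of `c` -/
def bt (k c : ℕ) : ℕ := c / 2 ^ k % 2

section
variable {V : Type} (E : V → V → V → V → ℕ)

/-- code of the structure on six points -/
def cd (a b c d e f : V) : ℕ :=
  b10 (E a b c d) (E a b c e) (E a b d e) (E a c d e) (E a b c f) (E a b d f) (E a c d f) (E a b e f)
    (E a c e f) (E a d e f)

/-- code of the link of the point `u` on six points -/
def fl (a b c d e f u : V) : ℕ :=
  b10 (E a b c u) (E a b d u) (E a c d u) (E a b e u) (E a c e u) (E a d e u) (E a b f u) (E a c f u)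
    (E a d f u) (E a e f u)

end

section
variable {V : Type} (κ : V → V → V → V → V → V → V → V → ℤ)

/-- sum of `κ` over the 28 pairs of eight points: the pair comes last, the other six points in order first -/
def L8 (x0 x1 x2 x3 x4 x5 x6 x7 : V) : ℤ :=
  κ x2 x3 x4 x5 x6 x7 x0 x1 +
  (κ x1 x3 x4 x5 x6 x7 x0 x2 +
  (κ x1 x2 x4 x5 x6 x7 x0 x3 +
  (κ x1 x2 x3 x5 x6 x7 x0 x4 +
  (κ x1 x2 x3 x4 x6 x7 x0 x5 +
  (κ x1 x2 x3 x4 x5 x7 x0 x6 +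
  (κ x1 x2 x3 x4 x5 x6 x0 x7 +
  (κ x0 x3 x4 x5 x6 x7 x1 x2 +
  (κ x0 x2 x4 x5 x6 x7 x1 x3 +
  (κ x0 x2 x3 x5 x6 x7 x1 x4 +
  (κ x0 x2 x3 x4 x6 x7 x1 x5 +
  (κ x0 x2 x3 x4 x5 x7 x1 x6 +
  (κ x0 x2 x3 x4 x5 x6 x1 x7 +
  (κ x0 x1 x4 x5 x6 x7 x2 x3 +
  (κ x0 x1 x3 x5 x6 x7 x2 x4 +
  (κ x0 x1 x3 x4 x6 x7 x2 x5 +
  (κ x0 x1 x3 x4 x5 x7 x2 x6 +
  (κ x0 x1 x3 x4 x5 x6 x2 x7 +
  (κ x0 x1 x2 x5 x6 x7 x3 x4 +
  (κ x0 x1 x2 x4 x6 x7 x3 x5 +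
  (κ x0 x1 x2 x4 x5 x7 x3 x6 +
  (κ x0 x1 x2 x4 x5 x6 x3 x7 +
  (κ x0 x1 x2 x3 x6 x7 x4 x5 +
  (κ x0 x1 x2 x3 x5 x7 x4 x6 +
  (κ x0 x1 x2 x3 x5 x6 x4 x7 +
  (κ x0 x1 x2 x3 x4 x7 x5 x6 +
  (κ x0 x1 x2 x3 x4 x6 x5 x7 +
  (κ x0 x1 x2 x3 x4 x5 x6 x7)))))))))))))))))))))))))))

def L8f (x : Fin 8 → V) : ℤ := L8 κ (x 0) (x 1) (x 2) (x 3) (x 4) (x 5) (x 6) (x 7)

end

section
variable {V : Type} (E : V → V → V → V → ℕ)

/-- number of the 35 quadruples of seven points with `E = 1` -/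
def t7 (x0 x1 x2 x3 x4 x5 x6 : V) : ℕ :=
  E x0 x1 x2 x3 + (E x0 x1 x2 x4 + (E x0 x1 x2 x5 + (E x0 x1 x2 x6 + (E x0 x1 x3 x4 + (E x0 x1 x3 x5 + (E x0 x1 x3 x6 + (E x0 x1 x4 x5 + (E x0 x1 x4 x6 + (E x0 x1 x5 x6 + (E x0 x2 x3 x4 + (E x0 x2 x3 x5 + (E x0 x2 x3 x6 + (E x0 x2 x4 x5 + (E x0 x2 x4 x6 + (E x0 x2 x5 x6 + (E x0 x3 x4 x5 + (E x0 x3 x4 x6 + (E x0 x3 x5 x6 + (E x0 x4 x5 x6 + (E x1 x2 x3 x4 + (E x1 x2 x3 x5 + (E x1 x2 x3 x6 + (E x1 x2 x4 x5 + (E x1 x2 x4 x6 + (E x1 x2 x5 x6 + (E x1 x3 x4 x5 + (E x1 x3 x4 x6 + (E x1 x3 x5 x6 + (E x1 x4 x5 x6 + (E x2 x3 x4 x5 + (E x2 x3 x4 x6 + (E x2 x3 x5 x6 + (E x2 x4 x5 x6 + (E x3 x4 x5 x6))))))))))))))))))))))))))))))))))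

/-- number of the 35 quadruples containing `x7` among eight points -/
def g7 (x0 x1 x2 x3 x4 x5 x6 x7 : V) : ℕ :=
  E x0 x1 x2 x7 + (E x0 x1 x3 x7 + (E x0 x1 x4 x7 + (E x0 x1 x5 x7 + (E x0 x1 x6 x7 + (E x0 x2 x3 x7 + (E x0 x2 x4 x7 + (E x0 x2 x5 x7 + (E x0 x2 x6 x7 + (E x0 x3 x4 x7 + (E x0 x3 x5 x7 + (E x0 x3 x6 x7 + (E x0 x4 x5 x7 + (E x0 x4 x6 x7 + (E x0 x5 x6 x7 + (E x1 x2 x3 x7 + (E x1 x2 x4 x7 + (E x1 x2 x5 x7 + (E x1 x2 x6 x7 + (E x1 x3 x4 x7 + (E x1 x3 x5 x7 + (E x1 x3 x6 x7 + (E x1 x4 x5 x7 + (E x1 x4 x6 x7 + (E x1 x5 x6 x7 + (E x2 x3 x4 x7 + (E x2 x3 x5 x7 + (E x2 x3 x6 x7 + (E x2 x4 x5 x7 + (E x2 x4 x6 x7 + (E x2 x5 x6 x7 + (E x3 x4 x5 x7 + (E x3 x4 x6 x7 + (E x3 x5 x6 x7 + (E x4 x5 x6 x7))))))))))))))))))))))))))))))))))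

/-- number of the 70 quadruples of eight points with `E = 1` -/
def D8 (x0 x1 x2 x3 x4 x5 x6 x7 : V) : ℕ := t7 E x0 x1 x2 x3 x4 x5 x6 + g7 E x0 x1 x2 x3 x4 x5 x6 x7

def t7f (y : Fin 7 → V) : ℕ := t7 E (y 0) (y 1) (y 2) (y 3) (y 4) (y 5) (y 6)

def D8f (x : Fin 8 → V) : ℕ := D8 E (x 0) (x 1) (x 2) (x 3) (x 4) (x 5) (x 6) (x 7)

/-- code of the structure on seven points -/
def cd7 (y : Fin 7 → V) : ℕ :=
  cd E (y 0) (y 1) (y 2) (y 3) (y 4) (y 5) + 1024 * fl E (y 0) (y 1) (y 2) (y 3) (y 4) (y 5) (y 6)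

end

/-- action on codes of the exchange of points 0 and 1 -/
def C0 (c : ℕ) : ℕ :=
  b10 (bt 0 c) (bt 1 c) (bt 2 c) ((1 + bt 0 c + bt 1 c + bt 2 c + bt 3 c) % 2) (bt 4 c) (bt 5 c) ((1 + bt 0 c + bt 4 c + bt 5 c + bt 6 c) % 2) (bt 7 c) ((1 + bt 1 c + bt 4 c + bt 7 c + bt 8 c) % 2) ((1 + bt 2 c + bt 5 c + bt 7 c + bt 9 c) % 2)

def F0 (c f : ℕ) : ℕ :=
  b10 (bt 0 f) (bt 1 f) ((1 + bt 0 c + bt 0 f + bt 1 f + bt 2 f) % 2) (bt 3 f) ((1 + bt 1 c + bt 0 f + bt 3 f + bt 4 f) % 2) ((1 + bt 2 c + bt 1 f + bt 3 f + bt 5 f) % 2) (bt 6 f) ((1 + bt 4 c + bt 0 f + bt 6 f + bt 7 f) % 2) ((1 + bt 5 c + bt 1 f + bt 6 f + bt 8 f) % 2) ((1 + bt 7 c + bt 3 f + bt 6 f + bt 9 f) % 2)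

/-- action on codes of the exchange of points 1 and 2 -/
def C1 (c : ℕ) : ℕ :=
  b10 (bt 0 c) (bt 1 c) (bt 3 c) (bt 2 c) (bt 4 c) (bt 6 c) (bt 5 c) (bt 8 c) (bt 7 c) (bt 9 c)

def F1 (c f : ℕ) : ℕ :=
  b10 (bt 0 f) (bt 2 f) (bt 1 f) (bt 4 f) (bt 3 f) (bt 5 f) (bt 7 f) (bt 6 f) (bt 8 f) (bt 9 f)

/-- action on codes of the exchange of points 2 and 3 -/
def C2 (c : ℕ) : ℕ :=
  b10 (bt 0 c) (bt 2 c) (bt 1 c) (bt 3 c) (bt 5 c) (bt 4 c) (bt 6 c) (bt 7 c) (bt 9 c) (bt 8 c)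

def F2 (c f : ℕ) : ℕ :=
  b10 (bt 1 f) (bt 0 f) (bt 2 f) (bt 3 f) (bt 5 f) (bt 4 f) (bt 6 f) (bt 8 f) (bt 7 f) (bt 9 f)

/-- action on codes of the exchange of points 3 and 4 -/
def C3 (c : ℕ) : ℕ :=
  b10 (bt 1 c) (bt 0 c) (bt 2 c) (bt 3 c) (bt 4 c) (bt 7 c) (bt 8 c) (bt 5 c) (bt 6 c) (bt 9 c)

def F3 (c f : ℕ) : ℕ :=
  b10 (bt 0 f) (bt 3 f) (bt 4 f) (bt 1 f) (bt 2 f) (bt 5 f) (bt 6 f) (bt 7 f) (bt 9 f) (bt 8 f)

/-- action on codes of the exchange of points 4 and 5 -/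
def C4 (c : ℕ) : ℕ :=
  b10 (bt 0 c) (bt 4 c) (bt 5 c) (bt 6 c) (bt 1 c) (bt 2 c) (bt 3 c) (bt 7 c) (bt 8 c) (bt 9 c)

def F4 (c f : ℕ) : ℕ :=
  b10 (bt 0 f) (bt 1 f) (bt 2 f) (bt 6 f) (bt 7 f) (bt 8 f) (bt 3 f) (bt 4 f) (bt 5 f) (bt 9 f)

/-- statement CODES -/
def S_codes : Prop := ∀ (V : Type) (E : V → V → V → V → ℕ), Odd4 E → ∀ a b c d e f : V,
  cd E a b c d e f < 1024 ∧ (∀ u, fl E a b c d e f u < 1024) ∧
  cd E b a c d e f = C0 (cd E a b c d e f) ∧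
  (∀ u, fl E b a c d e f u = F0 (cd E a b c d e f) (fl E a b c d e f u)) ∧
  cd E a c b d e f = C1 (cd E a b c d e f) ∧
  (∀ u, fl E a c b d e f u = F1 (cd E a b c d e f) (fl E a b c d e f u)) ∧
  cd E a b d c e f = C2 (cd E a b c d e f) ∧
  (∀ u, fl E a b d c e f u = F2 (cd E a b c d e f) (fl E a b c d e f u)) ∧
  cd E a b c e d f = C3 (cd E a b c d e f) ∧
  (∀ u, fl E a b c e d f u = F3 (cd E a b c d e f) (fl E a b c d e f u)) ∧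
  cd E a b c d f e = C4 (cd E a b c d e f) ∧
  (∀ u, fl E a b c d f e u = F4 (cd E a b c d e f) (fl E a b c d e f u))

/-- `κ` does not depend on the order of the first six points, nor on that of the last two -/
structure Sym62 {V : Type} (κ : V → V → V → V → V → V → V → V → ℤ) : Prop where
  k0 : ∀ a b c d e f u v, κ b a c d e f u v = κ a b c d e f u v
  k1 : ∀ a b c d e f u v, κ a c b d e f u v = κ a b c d e f u v
  k2 : ∀ a b c d e f u v, κ a b d c e f u v = κ a b c d e f u v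
  k3 : ∀ a b c d e f u v, κ a b c e d f u v = κ a b c d e f u v
  k4 : ∀ a b c d e f u v, κ a b c d f e u v = κ a b c d e f u v
  kw : ∀ a b c d e f u v, κ a b c d e f v u = κ a b c d e f u v

/-- statement SYM -/
def S_sym : Prop :=
  (∀ (V : Type) (κ : V → V → V → V → V → V → V → V → ℤ), Sym62 κ →
    ∀ (x : Fin 8 → V) (π : Equiv.Perm (Fin 8)), L8f κ (x ∘ π) = L8f κ x) ∧
  (∀ (V : Type) (E : V → V → V → V → ℕ), Odd4 E →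
    (∀ (x : Fin 8 → V) (π : Equiv.Perm (Fin 8)), D8f E (x ∘ π) = D8f E x) ∧
    (∀ (y : Fin 7 → V) (π : Equiv.Perm (Fin 7)), t7f E (y ∘ π) = t7f E y))

/-- statement WLOG (from SYM): some relabelling of eight points puts the six-point code of the first seven points
in a given family and makes the number of quadruples of the first seven smallest -/
def S_wlog : Prop := ∀ (R : ℕ → Prop) (V : Type) (E : V → V → V → V → ℕ), Odd4 E →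
  (∀ y : Fin 7 → V, ∃ π : Equiv.Perm (Fin 7), R (cd7 E (y ∘ π))) →
  ∀ x : Fin 8 → V, ∃ π : Equiv.Perm (Fin 8), R (cd7 E (fun i : Fin 7 => x (π i.castSucc))) ∧
    ∀ j : Fin 8, t7f E (fun i : Fin 7 => x (π i.castSucc)) ≤ t7f E (fun i : Fin 7 => x (π (j.succAbove i)))

/-- statement AVG -/
def S_avg : Prop := ∀ (V : Type) [Fintype V] (κ : V → V → V → V → V → V → V → V → ℤ)
  (E : V → V → V → V → ℕ) (s : ℤ), 0 < s →
  (∀ a b c d e f, 0 ≤ ∑ u, ∑ v, κ a b c d e f u v) →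
  (∀ x : Fin 8 → V, L8f κ x ≤ s * (8 * (D8f E x : ℤ) - 175)) →
  5 * (Fintype.card V) ^ 4 ≤ 16 * ∑ a, ∑ b, ∑ c, ∑ d, E a b c d

/-- statement CORE: the main inequality -/
def S_core : Prop := ∀ (V : Type) [Fintype V] (E : V → V → V → V → ℕ), Odd4 E →
  5 * (Fintype.card V) ^ 4 ≤ 16 * ∑ a, ∑ b, ∑ c, ∑ d, E a b c d

/-- the number of members of `H` inside `P` -/
def nin {n : ℕ} (H : Finset (Finset (Fin n))) (P : Finset (Fin n)) : ℕ := (H.filter (· ⊆ P)).card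

/-- statement EVEN (from CORE) -/
def S_even : Prop := S_core → ∀ (n : ℕ) (H : Finset (Finset (Fin n))), H ⊆ powersetCard 4 univ →
  (∀ P ∈ powersetCard 5 (univ : Finset (Fin n)), Even (nin H P)) → 384 * H.card ≤ 11 * n ^ 4

/-- weight of a five-point set spanning `k` edges -/
def wt5 (k : ℕ) : ℕ := if k % 2 = 0 then 5 - k else k

/-- statement UNIV (from CORE): an inequality valid for every 4-graph -/
def S_univ : Prop := S_core → ∀ (n : ℕ) (H : Finset (Finset (Fin n))), H ⊆ powersetCard 4 univ →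
  5 * n ^ 5 ≤ 384 * ∑ P ∈ powersetCard 5 (univ : Finset (Fin n)), wt5 (nin H P) + 200 * n ^ 4

/-- statement LOWER: 4-graphs of density close to 11/16 in which every five points span an even number of edges -/
def S_lower : Prop := ∀ ε : ℝ, 0 < ε → ∃ N : ℕ, ∀ n : ℕ, N ≤ n → ∃ H : Finset (Finset (Fin n)),
  H ⊆ powersetCard 4 univ ∧ (∀ P ∈ powersetCard 5 (univ : Finset (Fin n)), Even (nin H P)) ∧
  (11 / 16 - ε) * (n.choose 4 : ℝ) ≤ (H.card : ℝ)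

end Pool.Agent.Y440.A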